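import Pool.Agent.Work.MP_f896b9_an.Main

open scoped Ordinal

namespace Pool.Agent.Results.MP_f896b9_an.ExactValues

open Pool.Agent.F896b9

/-- For every countable ordinal `α ≥ 1` the exact values of `c_{C([0, ω^α])}(𝒞)` for the three
classes `𝒞` of separable Banach spaces: it is `2` for the spaces of nontrivial cotype and for the
spaces of nontrivial type, and for the superreflexive spaces it is `2` if `α` is finite and `1`
if `α` is infinite. -/
theorem result (α : Ordinal.{0}) (h1 : 1 ≤ α) (h2 : α < Ordinal.omega 1) :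
    cClass (COrd (Ordinal.omega0 ^ α)) COT = 2 ∧
    cClass (COrd (Ordinal.omega0 ^ α)) TYP = 2 ∧
    (α < Ordinal.omega0 → cClass (COrd (Ordinal.omega0 ^ α)) SR = 2) ∧
    (Ordinal.omega0 ≤ α → cClass (COrd (Ordinal.omega0 ^ α)) SR = 1) :=
  ⟨cot_eq h1 h2, typ_eq h1 h2, sr_eq_two h1, sr_eq_one⟩

end Pool.Agent.Results.MP_f896b9_an.ExactValues
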